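import Mathlib

set_option autoImplicit false

namespace Pool.Agent.Results.MP_5dc1dd_co.Para

open Set Complex

/-- a countable family such that every point on no boundary is interior to exactly `d` tiles -/
def IsMultTiling (d : ℕ) (T : Set (Set ℂ)) : Prop :=
  T.Countable ∧ ∀ z : ℂ, (∀ t ∈ T, z ∉ frontier t) → {t | t ∈ T ∧ z ∈ interior t}.encard = d

/-- `T` splits into two or more nonempty subfamilies that are multiple tilings of lower density -/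
def IsReducible (d : ℕ) (T : Set (Set ℂ)) : Prop :=
  ∃ (ι : Type) (S : ι → Set (Set ℂ)) (e : ι → ℕ), Nontrivial ι ∧
    (∀ i j, i ≠ j → Disjoint (S i) (S j)) ∧ ⋃ i, S i = T ∧
    ∀ i, (S i).Nonempty ∧ 1 ≤ e i ∧ e i < d ∧ IsMultTiling (e i) (S i)

lemma edge {T : Set (Set ℂ)} (hT : IsMultTiling 2 T) {ι : Type} {S : ι → Set (Set ℂ)}
    {e : ι → ℕ} (hd : ∀ i j, i ≠ j → Disjoint (S i) (S j)) (hU : ⋃ i, S i = T)
    (hS : ∀ i, (S i).Nonempty ∧ 1 ≤ e i ∧ e i < 2 ∧ IsMultTiling (e i) (S i))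
    {t u : Set ℂ} {a b : ι} (ha : t ∈ S a) (hb : u ∈ S b) (htu : t ≠ u) {z : ℂ}
    (hz : ∀ t ∈ T, z ∉ frontier t) (zt : z ∈ interior t) (zu : z ∈ interior u) :
    a ≠ b ∧ ∀ i, i = a ∨ i = b := by
  have hsub : ∀ i, S i ⊆ T := fun i => hU ▸ subset_iUnion S i
  have h1 : ∀ i, ∃ w, {t | t ∈ S i ∧ z ∈ interior t} = {w} := by
    intro i
    obtain ⟨-, e1, e2, -, h⟩ := hS i
    have := h z (fun t ht => hz t (hsub i ht))
    rw [show e i = 1 by omega] at this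
    exact encard_eq_one.mp (by simpa using this)
  constructor
  · rintro rfl
    obtain ⟨w, hw⟩ := h1 a
    have p1 : t ∈ ({w} : Set (Set ℂ)) := hw ▸ ⟨ha, zt⟩
    have p2 : u ∈ ({w} : Set (Set ℂ)) := hw ▸ ⟨hb, zu⟩
    exact htu (p1.trans p2.symm)
  · intro i
    obtain ⟨w, hw⟩ := h1 i
    have p0 : w ∈ {t | t ∈ S i ∧ z ∈ interior t} := hw ▸ rfl
    obtain ⟨x, y, hxy, h2⟩ := encard_eq_two.mp (by simpa using hT.2 z hz :
      {t | t ∈ T ∧ z ∈ interior t}.encard = 2)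
    have q0 : w ∈ ({x, y} : Set (Set ℂ)) := h2 ▸ ⟨hsub i p0.1, p0.2⟩
    have q1 : t ∈ ({x, y} : Set (Set ℂ)) := h2 ▸ ⟨hsub a ha, zt⟩
    have q2 : u ∈ ({x, y} : Set (Set ℂ)) := h2 ▸ ⟨hsub b hb, zu⟩
    have : w = t ∨ w = u := by
      simp only [mem_insert_iff, mem_singleton_iff] at q0 q1 q2
      rcases q0 with q0 | q0 <;> rcases q1 with q1 | q1 <;> rcases q2 with q2 | q2 <;>
        first
        | exact Or.inl (q0.trans q1.symm)
        | exact Or.inr (q0.trans q2.symm)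
        | exact absurd (q1.trans q2.symm) htu
    rcases this with rfl | rfl
    · left; by_contra h; exact (Set.disjoint_left.mp (hd _ _ h)) p0.1 ha
    · right; by_contra h; exact (Set.disjoint_left.mp (hd _ _ h)) p0.1 hb

/-- the parallelogram spanned by `u` and `v` -/
def para (u v : ℂ) : Set ℂ := {z | ∃ s ∈ Icc (0 : ℝ) 1, ∃ t ∈ Icc (0 : ℝ) 1, z = s * u + t * v}

def wd (o : Bool) : ℤ := if o then 1 else 3
def ht (o : Bool) : ℤ := if o then 3 else 1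

def tile (j : Bool × ℤ × ℤ) : Set ℂ :=
  Icc (j.2.1 : ℝ) (j.2.1 + wd j.1) ×ℂ Icc (j.2.2 : ℝ) (j.2.2 + ht j.1)

def J (j : Bool × ℤ × ℤ) : Prop :=
  (j.1 = false ∧ ((j.2.2 % 2 = 0 ∧ j.2.1 % 3 = 0) ∨ (j.2.2 % 4 = 1 ∧ j.2.1 % 2 = 1) ∨
    (j.2.2 % 4 = 3 ∧ j.2.1 % 2 = 0))) ∨
  (j.1 = true ∧ ((j.2.2 % 4 = 0 ∧ j.2.1 % 2 = 0) ∨ (j.2.2 % 4 = 2 ∧ j.2.1 % 2 = 1)))

def TT : Set (Set ℂ) := tile '' {j | J j}

lemma mem_tile (j : Bool × ℤ × ℤ) (z : ℂ) : z ∈ tile j ↔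
    ((j.2.1 : ℝ) ≤ z.re ∧ z.re ≤ j.2.1 + wd j.1) ∧ ((j.2.2 : ℝ) ≤ z.im ∧ z.im ≤ j.2.2 + ht j.1) :=
  Iff.rfl

lemma mem_int (j : Bool × ℤ × ℤ) (z : ℂ) : z ∈ interior (tile j) ↔
    ((j.2.1 : ℝ) < z.re ∧ z.re < j.2.1 + wd j.1) ∧ ((j.2.2 : ℝ) < z.im ∧ z.im < j.2.2 + ht j.1) := by
  rw [tile, interior_reProdIm, interior_Icc, interior_Icc]; rfl

lemma mem_fr (j : Bool × ℤ × ℤ) (z : ℂ) :
    z ∈ frontier (tile j) ↔ z ∈ tile j ∧ z ∉ interior (tile j) := by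
  have : IsClosed (tile j) := isClosed_Icc.reProdIm isClosed_Icc
  rw [this.frontier_eq]; rfl

lemma tile_inj : Function.Injective tile := by
  rintro ⟨o, a, b⟩ ⟨o', a', b'⟩ h
  have k : ∀ z, z ∈ tile (o, a, b) ↔ z ∈ tile (o', a', b') := fun z => by rw [h]
  have k1 := (k ⟨a, b⟩).1
  have k2 := (k ⟨a', b'⟩).2
  have k3 := (k ⟨a + wd o, b⟩).1
  have k4 := (k ⟨a' + wd o', b'⟩).2
  simp only [mem_tile] at k1 k2 k3 k4
  norm_cast at k1 k2 k3 k4
  cases o <;> cases o' <;> simp only [wd, ht, if_true, if_false, Bool.false_eq_true] at * <;>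
    simp only [Prod.mk.injEq, true_and, Bool.false_eq_true, Bool.true_eq_false, false_and] <;> omega

lemma generic {z : ℂ} (hz : ∀ t ∈ TT, z ∉ frontier t) :
    (⌊z.re⌋ : ℝ) < z.re ∧ (⌊z.im⌋ : ℝ) < z.im := by
  have a1 := Int.floor_le z.re
  have a2 := Int.lt_floor_add_one z.re
  have b1 := Int.floor_le z.im
  have b2 := Int.lt_floor_add_one z.im
  set m := ⌊z.re⌋
  set n := ⌊z.im⌋
  constructor
  · by_contra h
    have e : z.re = m := le_antisymm (not_lt.mp h) a1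
    obtain ⟨a, b, hJ, c1, c2, c3⟩ : ∃ a b : ℤ, J (true, a, b) ∧ (a = m ∨ a + 1 = m) ∧
        b ≤ n ∧ n ≤ b + 2 := by
      have : n % 4 = 0 ∨ n % 4 = 1 ∨ n % 4 = 2 ∨ n % 4 = 3 := by omega
      rcases this with h | h | h | h
      · exact ⟨m - m % 2, n, by simp [J]; omega, by omega, by omega, by omega⟩
      · exact ⟨m - m % 2, n - 1, by simp [J]; omega, by omega, by omega, by omega⟩
      · exact ⟨m - m % 2, n - 2, by simp [J]; omega, by omega, by omega, by omega⟩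
      · exact ⟨m - (m + 1) % 2, n - 1, by simp [J]; omega, by omega, by omega, by omega⟩
    apply hz _ ⟨_, hJ, rfl⟩
    rw [mem_fr, mem_tile, mem_int]
    have c2' : (b : ℝ) ≤ n := by exact_mod_cast c2
    have c3' : (n : ℝ) ≤ b + 2 := by exact_mod_cast c3
    simp only [wd, ht, if_true]
    rcases c1 with c | c
    · have c' : (a : ℝ) = m := by exact_mod_cast c
      push_cast
      exact ⟨⟨⟨by linarith, by linarith⟩, by linarith, by linarith⟩, fun h => by linarith [h.1.1]⟩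
    · have c' : (a : ℝ) + 1 = m := by exact_mod_cast c
      push_cast
      exact ⟨⟨⟨by linarith, by linarith⟩, by linarith, by linarith⟩, fun h => by linarith [h.1.2]⟩
  · by_contra h
    have e : z.im = n := le_antisymm (not_lt.mp h) b1
    obtain ⟨a, b, hJ, c1, c2, c3⟩ : ∃ a b : ℤ, J (false, a, b) ∧ (b = n ∨ b + 1 = n) ∧
        a ≤ m ∧ m ≤ a + 2 :=
      ⟨m - m % 3, n - n % 2, by simp [J], by omega, by omega, by omega⟩
    apply hz _ ⟨_, hJ, rfl⟩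
    rw [mem_fr, mem_tile, mem_int]
    have c2' : (a : ℝ) ≤ m := by exact_mod_cast c2
    have c3' : (m : ℝ) ≤ a + 2 := by exact_mod_cast c3
    simp only [wd, ht, if_false, Bool.false_eq_true]
    rcases c1 with c | c
    · have c' : (b : ℝ) = n := by exact_mod_cast c
      push_cast
      exact ⟨⟨⟨by linarith, by linarith⟩, by linarith, by linarith⟩, fun h => by linarith [h.2.1]⟩
    · have c' : (b : ℝ) + 1 = n := by exact_mod_cast c
      push_cast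
      exact ⟨⟨⟨by linarith, by linarith⟩, by linarith, by linarith⟩, fun h => by linarith [h.2.2]⟩

lemma btw {x : ℝ} (h : (⌊x⌋ : ℝ) < x) (a w : ℤ) :
    ((a : ℝ) < x ∧ x < a + w) ↔ (a ≤ ⌊x⌋ ∧ ⌊x⌋ < a + w) := by
  rw [Int.le_floor, Int.floor_lt]
  push_cast
  constructor
  · rintro ⟨h1, h2⟩; exact ⟨h1.le, h2⟩
  · rintro ⟨h1, h2⟩
    have : (a : ℝ) ≤ ⌊x⌋ := by exact_mod_cast Int.le_floor.mpr h1
    exact ⟨by linarith, h2⟩

lemma two (m n : ℤ) : ∃ j k : Bool × ℤ × ℤ, j ≠ k ∧ ∀ i : Bool × ℤ × ℤ,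
    (J i ∧ (i.2.1 ≤ m ∧ m < i.2.1 + wd i.1) ∧ (i.2.2 ≤ n ∧ n < i.2.2 + ht i.1)) ↔
      (i = j ∨ i = k) := by
  have h1 : n % 4 = 0 ∨ n % 4 = 1 ∨ n % 4 = 2 ∨ n % 4 = 3 := by omega
  have h2 : m % 2 = 0 ∨ m % 2 = 1 := by omega
  rcases h1 with h1 | h1 | h1 | h1 <;> rcases h2 with h2 | h2
  · refine ⟨(false, m - m % 3, n), (true, m, n), by simp, ?_⟩
    rintro ⟨o, a, b⟩; cases o <;> simp [J, wd, ht] <;> omega
  · refine ⟨(false, m - m % 3, n), (true, m, n - 2), by simp, ?_⟩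
    rintro ⟨o, a, b⟩; cases o <;> simp [J, wd, ht] <;> omega
  · refine ⟨(false, m - 1, n), (true, m, n - 1), by simp, ?_⟩
    rintro ⟨o, a, b⟩; cases o <;> simp [J, wd, ht] <;> omega
  · refine ⟨(false, m, n), (false, m - 2, n), by simp; omega, ?_⟩
    rintro ⟨o, a, b⟩; cases o <;> simp [J, wd, ht] <;> omega
  · refine ⟨(false, m - m % 3, n), (true, m, n - 2), by simp, ?_⟩
    rintro ⟨o, a, b⟩; cases o <;> simp [J, wd, ht] <;> omega
  · refine ⟨(false, m - m % 3, n), (true, m, n), by simp, ?_⟩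
    rintro ⟨o, a, b⟩; cases o <;> simp [J, wd, ht] <;> omega
  · refine ⟨(false, m, n), (false, m - 2, n), by simp; omega, ?_⟩
    rintro ⟨o, a, b⟩; cases o <;> simp [J, wd, ht] <;> omega
  · refine ⟨(false, m - 1, n), (true, m, n - 1), by simp, ?_⟩
    rintro ⟨o, a, b⟩; cases o <;> simp [J, wd, ht] <;> omega

lemma TT_mult : IsMultTiling 2 TT := by
  refine ⟨(Set.to_countable _).image _, fun z hz => ?_⟩
  obtain ⟨g1, g2⟩ := generic hz
  obtain ⟨j, k, hjk, h⟩ := two ⌊z.re⌋ ⌊z.im⌋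
  have : {t | t ∈ TT ∧ z ∈ interior t} = {tile j, tile k} := by
    ext t
    constructor
    · rintro ⟨⟨i, hi, rfl⟩, hz⟩
      rw [mem_int, btw g1, btw g2] at hz
      rcases (h i).1 ⟨hi, hz⟩ with rfl | rfl <;> simp
    · rintro (rfl | rfl)
      · have := (h j).2 (Or.inl rfl)
        exact ⟨⟨j, this.1, rfl⟩, by rw [mem_int, btw g1, btw g2]; exact this.2⟩
      · have := (h k).2 (Or.inr rfl)
        exact ⟨⟨k, this.1, rfl⟩, by rw [mem_int, btw g1, btw g2]; exact this.2⟩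
  rw [this, encard_pair (fun e => hjk (tile_inj e))]; rfl

lemma half (m n : ℤ) : ∀ t ∈ TT, (⟨m + 1 / 2, n + 1 / 2⟩ : ℂ) ∉ frontier t := by
  rintro _ ⟨⟨o, a, b⟩, -, rfl⟩ h
  rw [mem_fr, mem_tile, mem_int] at h
  obtain ⟨⟨⟨h1, h2⟩, h3, h4⟩, h5⟩ := h
  apply h5
  have key : ∀ p q : ℤ, (p : ℝ) ≠ q + 1 / 2 := by
    intro p q h
    have : ((2 * p : ℤ) : ℝ) = ((2 * q + 1 : ℤ) : ℝ) := by push_cast; linarith
    have := Int.cast_injective this
    omega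
  refine ⟨⟨lt_of_le_of_ne h1 (key _ _), lt_of_le_of_ne h2 ?_⟩, lt_of_le_of_ne h3 (key _ _),
    lt_of_le_of_ne h4 ?_⟩
  · intro h; exact key (a + wd o) m (by push_cast; exact h.symm)
  · intro h; exact key (b + ht o) n (by push_cast; exact h.symm)

lemma TT_irred : ¬ IsReducible 2 TT := by
  rintro ⟨ι, S, e, -, hd, hU, hS⟩
  have cls : ∀ j, J j → ∃ c, tile j ∈ S c := fun j hj =>
    mem_iUnion.mp (hU ▸ (⟨j, hj, rfl⟩ : tile j ∈ TT))
  obtain ⟨c0, h0⟩ := cls (false, 0, 0) (by simp [J])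
  obtain ⟨c1, h1⟩ := cls (true, 0, 0) (by simp [J])
  obtain ⟨c2, h2⟩ := cls (false, -1, 1) (by simp [J])
  obtain ⟨c3, h3⟩ := cls (false, 1, 1) (by simp [J])
  obtain ⟨c4, h4⟩ := cls (true, 2, 0) (by simp [J])
  have e0 := edge TT_mult hd hU hS h0 h1 (fun h => by simpa using tile_inj h) (half 0 0)
    (by rw [mem_int]; norm_num [wd, ht]) (by rw [mem_int]; norm_num [wd, ht])
  have e1 := edge TT_mult hd hU hS h1 h2 (fun h => by simpa using tile_inj h) (half 0 1)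
    (by rw [mem_int]; norm_num [wd, ht]) (by rw [mem_int]; norm_num [wd, ht])
  have e2 := edge TT_mult hd hU hS h2 h3 (fun h => by simpa using tile_inj h) (half 1 1)
    (by rw [mem_int]; norm_num [wd, ht]) (by rw [mem_int]; norm_num [wd, ht])
  have e3 := edge TT_mult hd hU hS h3 h4 (fun h => by simpa using tile_inj h) (half 2 1)
    (by rw [mem_int]; norm_num [wd, ht]) (by rw [mem_int]; norm_num [wd, ht])
  have e4 := edge TT_mult hd hU hS h4 h0 (fun h => by simpa using tile_inj h) (half 2 0)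
    (by rw [mem_int]; norm_num [wd, ht]) (by rw [mem_int]; norm_num [wd, ht])
  have p2 : c2 = c0 := (e0.2 c2).resolve_right e1.1.symm
  have p3 : c3 = c1 := (e0.2 c3).resolve_left (p2 ▸ e2.1.symm)
  have p4 : c4 = c0 := (e0.2 c4).resolve_right (p3 ▸ e3.1.symm)
  exact e4.1 p4

lemma congr_tile (j : Bool × ℤ × ℤ) : ∃ f : ℂ → ℂ, Isometry f ∧ tile j = f '' para 3 I := by
  obtain ⟨o, a, b⟩ := j
  cases o
  · refine ⟨fun z => z + ⟨a, b⟩, isometry_add_right _, ?_⟩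
    ext z
    rw [mem_tile]
    simp only [wd, ht, if_false, Bool.false_eq_true]
    push_cast
    constructor
    · rintro ⟨⟨h1, h2⟩, h3, h4⟩
      refine ⟨_, ⟨(z.re - a) / 3, ⟨by linarith, by linarith⟩, z.im - b,
        ⟨by linarith, by linarith⟩, rfl⟩, ?_⟩
      apply Complex.ext <;> simp
    · rintro ⟨_, ⟨s, ⟨s1, s2⟩, t, ⟨t1, t2⟩, rfl⟩, rfl⟩
      simp
      refine ⟨⟨by linarith, by linarith⟩, by linarith, by linarith⟩
  · refine ⟨fun z => I * (starRingEnd ℂ) z + ⟨a, b⟩, ?_, ?_⟩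
    · apply Isometry.of_dist_eq
      intro x y
      rw [dist_add_right, Complex.dist_eq, Complex.dist_eq, ← mul_sub, ← map_sub, norm_mul,
        norm_I, one_mul, Complex.norm_conj]
    ext z
    rw [mem_tile]
    simp only [wd, ht, if_true]
    push_cast
    constructor
    · rintro ⟨⟨h1, h2⟩, h3, h4⟩
      refine ⟨_, ⟨(z.im - b) / 3, ⟨by linarith, by linarith⟩, z.re - a,
        ⟨by linarith, by linarith⟩, rfl⟩, ?_⟩
      apply Complex.ext <;> simp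
    · rintro ⟨_, ⟨s, ⟨s1, s2⟩, t, ⟨t1, t2⟩, rfl⟩, rfl⟩
      simp
      refine ⟨⟨by linarith, by linarith⟩, by linarith, by linarith⟩

theorem result : ∃ u v : ℂ, u.re * v.im - u.im * v.re ≠ 0 ∧ ∃ d : ℕ, 2 ≤ d ∧
    ∃ T : Set (Set ℂ), (∀ t ∈ T, ∃ f : ℂ → ℂ, Isometry f ∧ t = f '' para u v) ∧
      IsMultTiling d T ∧ ¬ IsReducible d T := by
  refine ⟨3, I, by simp, 2, le_rfl, TT, ?_, TT_mult, TT_irred⟩
  rintro _ ⟨j, -, rfl⟩
  exact congr_tile j

end Pool.Agent.Results.MP_5dc1dd_co.Para
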