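import Mathlib

set_option autoImplicit false

namespace Pool.Agent.Results.MP_5dc1dd_co.Tri

open Set Complex

/-- a countable family such that every point on no boundary is interior to exactly `d` tiles -/
def IsMultTiling (d : ℕ) (T : Set (Set ℂ)) : Prop :=
  T.Countable ∧ ∀ z : ℂ, (∀ t ∈ T, z ∉ frontier t) → {t | t ∈ T ∧ z ∈ interior t}.encard = d

/-- `T` splits into two or more nonempty subfamilies that are multiple tilings of lower density -/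
def IsReducible (d : ℕ) (T : Set (Set ℂ)) : Prop :=
  ∃ (ι : Type) (S : ι → Set (Set ℂ)) (e : ι → ℕ), Nontrivial ι ∧
    (∀ i j, i ≠ j → Disjoint (S i) (S j)) ∧ ⋃ i, S i = T ∧
    ∀ i, (S i).Nonempty ∧ 1 ≤ e i ∧ e i < d ∧ IsMultTiling (e i) (S i)

lemma edge {T : Set (Set ℂ)} (hT : IsMultTiling 2 T) {ι : Type} {S : ι → Set (Set ℂ)}
    {e : ι → ℕ} (hd : ∀ i j, i ≠ j → Disjoint (S i) (S j)) (hU : ⋃ i, S i = T)
    (hS : ∀ i, (S i).Nonempty ∧ 1 ≤ e i ∧ e i < 2 ∧ IsMultTiling (e i) (S i))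
    {t u : Set ℂ} {a b : ι} (ha : t ∈ S a) (hb : u ∈ S b) (htu : t ≠ u) {z : ℂ}
    (hz : ∀ t ∈ T, z ∉ frontier t) (zt : z ∈ interior t) (zu : z ∈ interior u) :
    a ≠ b ∧ ∀ i, i = a ∨ i = b := by
  have hsub : ∀ i, S i ⊆ T := fun i => hU ▸ subset_iUnion S i
  have h1 : ∀ i, ∃ w, {t | t ∈ S i ∧ z ∈ interior t} = {w} := by
    intro i
    obtain ⟨-, e1, e2, -, h⟩ := hS i
    have := h z (fun t ht => hz t (hsub i ht))
    rw [show e i = 1 by omega] at this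
    exact encard_eq_one.mp (by simpa using this)
  constructor
  · rintro rfl
    obtain ⟨w, hw⟩ := h1 a
    have p1 : t ∈ ({w} : Set (Set ℂ)) := hw ▸ ⟨ha, zt⟩
    have p2 : u ∈ ({w} : Set (Set ℂ)) := hw ▸ ⟨hb, zu⟩
    exact htu (p1.trans p2.symm)
  · intro i
    obtain ⟨w, hw⟩ := h1 i
    have p0 : w ∈ {t | t ∈ S i ∧ z ∈ interior t} := hw ▸ rfl
    obtain ⟨x, y, hxy, h2⟩ := encard_eq_two.mp (by simpa using hT.2 z hz :
      {t | t ∈ T ∧ z ∈ interior t}.encard = 2)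
    have q0 : w ∈ ({x, y} : Set (Set ℂ)) := h2 ▸ ⟨hsub i p0.1, p0.2⟩
    have q1 : t ∈ ({x, y} : Set (Set ℂ)) := h2 ▸ ⟨hsub a ha, zt⟩
    have q2 : u ∈ ({x, y} : Set (Set ℂ)) := h2 ▸ ⟨hsub b hb, zu⟩
    have : w = t ∨ w = u := by
      simp only [mem_insert_iff, mem_singleton_iff] at q0 q1 q2
      rcases q0 with q0 | q0 <;> rcases q1 with q1 | q1 <;> rcases q2 with q2 | q2 <;>
        first
        | exact Or.inl (q0.trans q1.symm)
        | exact Or.inr (q0.trans q2.symm)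
        | exact absurd (q1.trans q2.symm) htu
    rcases this with rfl | rfl
    · left; by_contra h; exact (Set.disjoint_left.mp (hd _ _ h)) p0.1 ha
    · right; by_contra h; exact (Set.disjoint_left.mp (hd _ _ h)) p0.1 hb

def wd (o : Bool) : ℤ := if o then 1 else 3
def ht (o : Bool) : ℤ := if o then 3 else 1

def tile (j : Bool × ℤ × ℤ) : Set ℂ :=
  Icc (j.2.1 : ℝ) (j.2.1 + wd j.1) ×ℂ Icc (j.2.2 : ℝ) (j.2.2 + ht j.1)

def J (j : Bool × ℤ × ℤ) : Prop :=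
  (j.1 = false ∧ ((j.2.2 % 2 = 0 ∧ j.2.1 % 3 = 0) ∨ (j.2.2 % 4 = 1 ∧ j.2.1 % 2 = 1) ∨
    (j.2.2 % 4 = 3 ∧ j.2.1 % 2 = 0))) ∨
  (j.1 = true ∧ ((j.2.2 % 4 = 0 ∧ j.2.1 % 2 = 0) ∨ (j.2.2 % 4 = 2 ∧ j.2.1 % 2 = 1)))

def TT : Set (Set ℂ) := tile '' {j | J j}

lemma mem_tile (j : Bool × ℤ × ℤ) (z : ℂ) : z ∈ tile j ↔
    ((j.2.1 : ℝ) ≤ z.re ∧ z.re ≤ j.2.1 + wd j.1) ∧ ((j.2.2 : ℝ) ≤ z.im ∧ z.im ≤ j.2.2 + ht j.1) :=
  Iff.rfl

lemma mem_int (j : Bool × ℤ × ℤ) (z : ℂ) : z ∈ interior (tile j) ↔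
    ((j.2.1 : ℝ) < z.re ∧ z.re < j.2.1 + wd j.1) ∧ ((j.2.2 : ℝ) < z.im ∧ z.im < j.2.2 + ht j.1) := by
  rw [tile, interior_reProdIm, interior_Icc, interior_Icc]; rfl

lemma mem_fr (j : Bool × ℤ × ℤ) (z : ℂ) :
    z ∈ frontier (tile j) ↔ z ∈ tile j ∧ z ∉ interior (tile j) := by
  have : IsClosed (tile j) := isClosed_Icc.reProdIm isClosed_Icc
  rw [this.frontier_eq]; rfl

lemma tile_inj : Function.Injective tile := by
  rintro ⟨o, a, b⟩ ⟨o', a', b'⟩ h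
  have k : ∀ z, z ∈ tile (o, a, b) ↔ z ∈ tile (o', a', b') := fun z => by rw [h]
  have k1 := (k ⟨a, b⟩).1
  have k2 := (k ⟨a', b'⟩).2
  have k3 := (k ⟨a + wd o, b⟩).1
  have k4 := (k ⟨a' + wd o', b'⟩).2
  simp only [mem_tile] at k1 k2 k3 k4
  norm_cast at k1 k2 k3 k4
  cases o <;> cases o' <;> simp only [wd, ht, if_true, if_false, Bool.false_eq_true] at * <;>
    simp only [Prod.mk.injEq, true_and, Bool.false_eq_true, Bool.true_eq_false, false_and] <;> omega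

lemma generic {z : ℂ} (hz : ∀ t ∈ TT, z ∉ frontier t) :
    (⌊z.re⌋ : ℝ) < z.re ∧ (⌊z.im⌋ : ℝ) < z.im := by
  have a1 := Int.floor_le z.re
  have a2 := Int.lt_floor_add_one z.re
  have b1 := Int.floor_le z.im
  have b2 := Int.lt_floor_add_one z.im
  set m := ⌊z.re⌋
  set n := ⌊z.im⌋
  constructor
  · by_contra h
    have e : z.re = m := le_antisymm (not_lt.mp h) a1
    obtain ⟨a, b, hJ, c1, c2, c3⟩ : ∃ a b : ℤ, J (true, a, b) ∧ (a = m ∨ a + 1 = m) ∧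
        b ≤ n ∧ n ≤ b + 2 := by
      have : n % 4 = 0 ∨ n % 4 = 1 ∨ n % 4 = 2 ∨ n % 4 = 3 := by omega
      rcases this with h | h | h | h
      · exact ⟨m - m % 2, n, by simp [J]; omega, by omega, by omega, by omega⟩
      · exact ⟨m - m % 2, n - 1, by simp [J]; omega, by omega, by omega, by omega⟩
      · exact ⟨m - m % 2, n - 2, by simp [J]; omega, by omega, by omega, by omega⟩
      · exact ⟨m - (m + 1) % 2, n - 1, by simp [J]; omega, by omega, by omega, by omega⟩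
    apply hz _ ⟨_, hJ, rfl⟩
    rw [mem_fr, mem_tile, mem_int]
    have c2' : (b : ℝ) ≤ n := by exact_mod_cast c2
    have c3' : (n : ℝ) ≤ b + 2 := by exact_mod_cast c3
    simp only [wd, ht, if_true]
    rcases c1 with c | c
    · have c' : (a : ℝ) = m := by exact_mod_cast c
      push_cast
      exact ⟨⟨⟨by linarith, by linarith⟩, by linarith, by linarith⟩, fun h => by linarith [h.1.1]⟩
    · have c' : (a : ℝ) + 1 = m := by exact_mod_cast c
      push_cast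
      exact ⟨⟨⟨by linarith, by linarith⟩, by linarith, by linarith⟩, fun h => by linarith [h.1.2]⟩
  · by_contra h
    have e : z.im = n := le_antisymm (not_lt.mp h) b1
    obtain ⟨a, b, hJ, c1, c2, c3⟩ : ∃ a b : ℤ, J (false, a, b) ∧ (b = n ∨ b + 1 = n) ∧
        a ≤ m ∧ m ≤ a + 2 :=
      ⟨m - m % 3, n - n % 2, by simp [J], by omega, by omega, by omega⟩
    apply hz _ ⟨_, hJ, rfl⟩
    rw [mem_fr, mem_tile, mem_int]
    have c2' : (a : ℝ) ≤ m := by exact_mod_cast c2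
    have c3' : (m : ℝ) ≤ a + 2 := by exact_mod_cast c3
    simp only [wd, ht, if_false, Bool.false_eq_true]
    rcases c1 with c | c
    · have c' : (b : ℝ) = n := by exact_mod_cast c
      push_cast
      exact ⟨⟨⟨by linarith, by linarith⟩, by linarith, by linarith⟩, fun h => by linarith [h.2.1]⟩
    · have c' : (b : ℝ) + 1 = n := by exact_mod_cast c
      push_cast
      exact ⟨⟨⟨by linarith, by linarith⟩, by linarith, by linarith⟩, fun h => by linarith [h.2.2]⟩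

lemma btw {x : ℝ} (h : (⌊x⌋ : ℝ) < x) (a w : ℤ) :
    ((a : ℝ) < x ∧ x < a + w) ↔ (a ≤ ⌊x⌋ ∧ ⌊x⌋ < a + w) := by
  rw [Int.le_floor, Int.floor_lt]
  push_cast
  constructor
  · rintro ⟨h1, h2⟩; exact ⟨h1.le, h2⟩
  · rintro ⟨h1, h2⟩
    have : (a : ℝ) ≤ ⌊x⌋ := by exact_mod_cast Int.le_floor.mpr h1
    exact ⟨by linarith, h2⟩

lemma two (m n : ℤ) : ∃ j k : Bool × ℤ × ℤ, j ≠ k ∧ ∀ i : Bool × ℤ × ℤ,
    (J i ∧ (i.2.1 ≤ m ∧ m < i.2.1 + wd i.1) ∧ (i.2.2 ≤ n ∧ n < i.2.2 + ht i.1)) ↔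
      (i = j ∨ i = k) := by
  have h1 : n % 4 = 0 ∨ n % 4 = 1 ∨ n % 4 = 2 ∨ n % 4 = 3 := by omega
  have h2 : m % 2 = 0 ∨ m % 2 = 1 := by omega
  rcases h1 with h1 | h1 | h1 | h1 <;> rcases h2 with h2 | h2
  · refine ⟨(false, m - m % 3, n), (true, m, n), by simp, ?_⟩
    rintro ⟨o, a, b⟩; cases o <;> simp [J, wd, ht] <;> omega
  · refine ⟨(false, m - m % 3, n), (true, m, n - 2), by simp, ?_⟩
    rintro ⟨o, a, b⟩; cases o <;> simp [J, wd, ht] <;> omega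
  · refine ⟨(false, m - 1, n), (true, m, n - 1), by simp, ?_⟩
    rintro ⟨o, a, b⟩; cases o <;> simp [J, wd, ht] <;> omega
  · refine ⟨(false, m, n), (false, m - 2, n), by simp; omega, ?_⟩
    rintro ⟨o, a, b⟩; cases o <;> simp [J, wd, ht] <;> omega
  · refine ⟨(false, m - m % 3, n), (true, m, n - 2), by simp, ?_⟩
    rintro ⟨o, a, b⟩; cases o <;> simp [J, wd, ht] <;> omega
  · refine ⟨(false, m - m % 3, n), (true, m, n), by simp, ?_⟩
    rintro ⟨o, a, b⟩; cases o <;> simp [J, wd, ht] <;> omega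
  · refine ⟨(false, m, n), (false, m - 2, n), by simp; omega, ?_⟩
    rintro ⟨o, a, b⟩; cases o <;> simp [J, wd, ht] <;> omega
  · refine ⟨(false, m - 1, n), (true, m, n - 1), by simp, ?_⟩
    rintro ⟨o, a, b⟩; cases o <;> simp [J, wd, ht] <;> omega

/-- the triangle with vertices `0`, `u`, `v` -/
def trig (u v : ℂ) : Set ℂ :=
  {z | ∃ s t : ℝ, 0 ≤ s ∧ 0 ≤ t ∧ s + t ≤ 1 ∧ z = s * u + t * v}

lemma int_half (p q c : ℝ) (hp : p ≠ 0) :
    interior {z : ℂ | c ≤ p * z.re + q * z.im} = {z : ℂ | c < p * z.re + q * z.im} := by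
  let f : ℂ →L[ℝ] ℝ := p • reCLM + q • imCLM
  have hf : ∀ z, f z = p * z.re + q * z.im := fun z => by simp [f]
  have hs : Function.Surjective f := fun x => ⟨((x / p : ℝ) : ℂ), by rw [hf]; simp; field_simp⟩
  have := (f.isOpenMap hs).preimage_interior_eq_interior_preimage f.continuous (Ici c)
  rw [interior_Ici] at this
  have e1 : {z : ℂ | c ≤ p * z.re + q * z.im} = f ⁻¹' Ici c := by ext z; simp [hf]
  have e2 : {z : ℂ | c < p * z.re + q * z.im} = f ⁻¹' Ioi c := by ext z; simp [hf]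
  rw [e1, e2, this]

def pp (o s : Bool) : ℤ := (if s then 1 else -1) * (if o then -3 else 1)
def qq (o s : Bool) : ℤ := (if s then 1 else -1) * (if o then 1 else -3)

def tri (j : Bool × ℤ × ℤ) (s : Bool) : Set ℂ :=
  tile j ∩ {z : ℂ | (pp j.1 s : ℝ) * j.2.1 + qq j.1 s * j.2.2 ≤ pp j.1 s * z.re + qq j.1 s * z.im}

def TR : Set (Set ℂ) := {t | ∃ j s, J j ∧ t = tri j s}

lemma mem_tri (j : Bool × ℤ × ℤ) (s : Bool) (z : ℂ) : z ∈ tri j s ↔ z ∈ tile j ∧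
    (pp j.1 s : ℝ) * j.2.1 + qq j.1 s * j.2.2 ≤ pp j.1 s * z.re + qq j.1 s * z.im := Iff.rfl

lemma mem_int_tri (j : Bool × ℤ × ℤ) (s : Bool) (z : ℂ) : z ∈ interior (tri j s) ↔
    z ∈ interior (tile j) ∧
    (pp j.1 s : ℝ) * j.2.1 + qq j.1 s * j.2.2 < pp j.1 s * z.re + qq j.1 s * z.im := by
  have : (pp j.1 s : ℝ) ≠ 0 := by
    obtain ⟨o, a, b⟩ := j
    cases o <;> cases s <;> simp [pp]
  rw [tri, interior_inter, int_half _ _ _ this]; rfl

lemma mem_fr_tri (j : Bool × ℤ × ℤ) (s : Bool) (z : ℂ) :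
    z ∈ frontier (tri j s) ↔ z ∈ tri j s ∧ z ∉ interior (tri j s) := by
  have h1 : IsClosed (tile j) := isClosed_Icc.reProdIm isClosed_Icc
  have : IsClosed (tri j s) := h1.inter (isClosed_le continuous_const (by fun_prop))
  rw [this.frontier_eq]; rfl

lemma pq_neg (o : Bool) : (pp o false : ℝ) = -pp o true ∧ (qq o false : ℝ) = -qq o true := by
  cases o <;> simp [pp, qq]

lemma tri_inj {j k : Bool × ℤ × ℤ} {s s' : Bool} (h : tri j s = tri k s') : j = k := by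
  obtain ⟨o, a, b⟩ := j
  obtain ⟨o', a', b'⟩ := k
  have k : ∀ z, z ∈ tri (o, a, b) s ↔ z ∈ tri (o', a', b') s' := fun z => by rw [h]
  have k1 := (k ⟨a, b⟩).1
  have k2 := (k ⟨a', b'⟩).2
  have k3 := (k ⟨a + wd o, b + ht o⟩).1
  simp only [mem_tri, mem_tile] at k1 k2 k3
  norm_cast at k1 k2 k3
  cases o <;> cases o' <;> cases s <;> cases s' <;>
    simp only [wd, ht, pp, qq, if_true, if_false, Bool.false_eq_true] at * <;>
    simp only [Prod.mk.injEq, true_and, Bool.false_eq_true, Bool.true_eq_false, false_and] <;> omega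

lemma TR_mult : IsMultTiling 2 TR := by
  constructor
  · have : TR ⊆ range (fun x : (Bool × ℤ × ℤ) × Bool => tri x.1 x.2) := by
      rintro _ ⟨j, s, -, rfl⟩; exact ⟨(j, s), rfl⟩
    exact (countable_range _).mono this
  intro z hz
  have hz' : ∀ j s, J j → z ∈ tri j s → z ∈ interior (tri j s) := by
    intro j s hj h
    by_contra h'
    exact hz _ ⟨j, s, hj, rfl⟩ ((mem_fr_tri j s z).2 ⟨h, h'⟩)
  have ex : ∀ j, z ∈ tile j → ∃ s, z ∈ tri j s := by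
    intro j h
    obtain ⟨n1, n2⟩ := pq_neg j.1
    by_cases hh : (pp j.1 true : ℝ) * j.2.1 + qq j.1 true * j.2.2
        ≤ pp j.1 true * z.re + qq j.1 true * z.im
    · exact ⟨true, h, hh⟩
    · refine ⟨false, (mem_tri _ _ _).2 ⟨h, ?_⟩⟩
      rw [n1, n2]; linarith
  have uniq : ∀ j s s', z ∈ interior (tri j s) → z ∈ interior (tri j s') → s = s' := by
    intro j s s' h h'
    obtain ⟨n1, n2⟩ := pq_neg j.1
    rw [mem_int_tri] at h h'
    cases s <;> cases s'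
    · rfl
    · have := h.2; rw [n1, n2] at this; linarith [h'.2]
    · have := h'.2; rw [n1, n2] at this; linarith [h.2]
    · rfl
  have hg : ∀ t ∈ TT, z ∉ frontier t := by
    rintro _ ⟨j, hj, rfl⟩ h
    rw [mem_fr] at h
    obtain ⟨s, hs⟩ := ex j h.1
    exact h.2 ((mem_int_tri j s z).1 (hz' j s hj hs)).1
  obtain ⟨g1, g2⟩ := generic hg
  obtain ⟨j, k, hjk, h⟩ := two ⌊z.re⌋ ⌊z.im⌋
  have hj := (h j).2 (Or.inl rfl)
  have hk := (h k).2 (Or.inr rfl)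
  have ij : z ∈ interior (tile j) := by rw [mem_int, btw g1, btw g2]; exact hj.2
  have ik : z ∈ interior (tile k) := by rw [mem_int, btw g1, btw g2]; exact hk.2
  obtain ⟨s, hs⟩ := ex j (interior_subset ij)
  obtain ⟨r, hr⟩ := ex k (interior_subset ik)
  have hs' := hz' j s hj.1 hs
  have hr' := hz' k r hk.1 hr
  have : {t | t ∈ TR ∧ z ∈ interior t} = {tri j s, tri k r} := by
    ext t
    constructor
    · rintro ⟨⟨i, u, hi, rfl⟩, hzz⟩
      have h0 := ((mem_int_tri i u z).1 hzz).1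
      rw [mem_int, btw g1, btw g2] at h0
      rcases (h i).1 ⟨hi, h0⟩ with rfl | rfl
      · rw [uniq _ _ _ hzz hs']; simp
      · rw [uniq _ _ _ hzz hr']; simp
    · rintro (rfl | rfl)
      · exact ⟨⟨j, s, hj.1, rfl⟩, hs'⟩
      · exact ⟨⟨k, r, hk.1, rfl⟩, hr'⟩
  rw [this, encard_pair (fun e => hjk (tri_inj e))]; rfl

lemma fifth (X Y : ℤ) (h1 : X % 5 ≠ 0) (h2 : Y % 5 ≠ 0) (h3 : (X - 3 * Y) % 5 ≠ 0)
    (h4 : (Y - 3 * X) % 5 ≠ 0) : ∀ t ∈ TR, (⟨X / 5, Y / 5⟩ : ℂ) ∉ frontier t := by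
  rintro _ ⟨⟨o, a, b⟩, s, -, rfl⟩ h
  rw [mem_fr_tri, mem_tri, mem_int_tri, mem_tile, mem_int] at h
  obtain ⟨⟨⟨⟨a1, a2⟩, a3, a4⟩, a5⟩, h5⟩ := h
  apply h5
  have key : ∀ p q : ℤ, q % 5 ≠ 0 → (p : ℝ) ≠ q / 5 := by
    intro p q hq h
    have : ((5 * p : ℤ) : ℝ) = (q : ℝ) := by push_cast; linarith
    have := Int.cast_injective this
    omega
  refine ⟨⟨⟨lt_of_le_of_ne a1 (key _ _ h1), lt_of_le_of_ne a2 ?_⟩,
    lt_of_le_of_ne a3 (key _ _ h2), lt_of_le_of_ne a4 ?_⟩, lt_of_le_of_ne a5 ?_⟩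
  · intro h; exact key (a + wd o) X h1 (by push_cast; exact h.symm)
  · intro h; exact key (b + ht o) Y h2 (by push_cast; exact h.symm)
  · intro h
    refine key (pp o s * a + qq o s * b) (pp o s * X + qq o s * Y) ?_ (by push_cast; linarith)
    cases o <;> cases s <;> simp only [pp, qq, if_true, if_false, Bool.false_eq_true] <;> omega

lemma TR_irred : ¬ IsReducible 2 TR := by
  rintro ⟨ι, S, e, -, hd, hU, hS⟩
  have cls : ∀ j s, J j → ∃ c, tri j s ∈ S c := fun j s hj =>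
    mem_iUnion.mp (hU ▸ (⟨j, s, hj, rfl⟩ : tri j s ∈ TR))
  obtain ⟨c0, h0⟩ := cls (false, 0, 0) false (by simp [J])
  obtain ⟨c1, h1⟩ := cls (true, 0, 0) false (by simp [J])
  obtain ⟨c2, h2⟩ := cls (false, -1, 1) true (by simp [J])
  obtain ⟨c3, h3⟩ := cls (false, 1, 1) false (by simp [J])
  obtain ⟨c4, h4⟩ := cls (true, 2, 0) true (by simp [J])
  have e0 := edge TR_mult hd hU hS h0 h1 (fun h => by simpa using tri_inj h)
    (fifth 2 2 (by decide) (by decide) (by decide) (by decide))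
    (by rw [mem_int_tri, mem_int]; norm_num [wd, ht, pp, qq])
    (by rw [mem_int_tri, mem_int]; norm_num [wd, ht, pp, qq])
  have e1 := edge TR_mult hd hU hS h1 h2 (fun h => by simpa using tri_inj h)
    (fifth 4 6 (by decide) (by decide) (by decide) (by decide))
    (by rw [mem_int_tri, mem_int]; norm_num [wd, ht, pp, qq])
    (by rw [mem_int_tri, mem_int]; norm_num [wd, ht, pp, qq])
  have e2 := edge TR_mult hd hU hS h2 h3 (fun h => by simpa using tri_inj h)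
    (fifth 7 7 (by decide) (by decide) (by decide) (by decide))
    (by rw [mem_int_tri, mem_int]; norm_num [wd, ht, pp, qq])
    (by rw [mem_int_tri, mem_int]; norm_num [wd, ht, pp, qq])
  have e3 := edge TR_mult hd hU hS h3 h4 (fun h => by simpa using tri_inj h)
    (fifth 11 9 (by decide) (by decide) (by decide) (by decide))
    (by rw [mem_int_tri, mem_int]; norm_num [wd, ht, pp, qq])
    (by rw [mem_int_tri, mem_int]; norm_num [wd, ht, pp, qq])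
  have e4 := edge TR_mult hd hU hS h4 h0 (fun h => by simpa using tri_inj h)
    (fifth 11 4 (by decide) (by decide) (by decide) (by decide))
    (by rw [mem_int_tri, mem_int]; norm_num [wd, ht, pp, qq])
    (by rw [mem_int_tri, mem_int]; norm_num [wd, ht, pp, qq])
  have p2 : c2 = c0 := (e0.2 c2).resolve_right e1.1.symm
  have p3 : c3 = c1 := (e0.2 c3).resolve_left (p2 ▸ e2.1.symm)
  have p4 : c4 = c0 := (e0.2 c4).resolve_right (p3 ▸ e3.1.symm)
  exact e4.1 p4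

lemma iso1 (c w : ℂ) (hc : ‖c‖ = 1) : Isometry (fun z : ℂ => c * z + w) := by
  apply Isometry.of_dist_eq
  intro x y
  rw [dist_add_right, Complex.dist_eq, Complex.dist_eq, ← mul_sub, norm_mul, hc, one_mul]

lemma iso2 (c w : ℂ) (hc : ‖c‖ = 1) : Isometry (fun z : ℂ => c * (starRingEnd ℂ) z + w) := by
  apply Isometry.of_dist_eq
  intro x y
  rw [dist_add_right, Complex.dist_eq, Complex.dist_eq, ← mul_sub, ← map_sub, norm_mul, hc,
    one_mul, Complex.norm_conj]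

lemma congr_tri (j : Bool × ℤ × ℤ) (s : Bool) :
    ∃ f : ℂ → ℂ, Isometry f ∧ tri j s = f '' trig 3 I := by
  obtain ⟨o, a, b⟩ := j
  cases o <;> cases s
  · refine ⟨_, iso2 1 ⟨a, b + 1⟩ (by simp), ?_⟩
    ext z
    rw [mem_tri, mem_tile]
    simp only [wd, ht, pp, qq, if_true, if_false, Bool.false_eq_true]
    push_cast
    constructor
    · rintro ⟨⟨⟨h1, h2⟩, h3, h4⟩, h5⟩
      refine ⟨_, ⟨(z.re - a) / 3, b + 1 - z.im, by linarith, by linarith, by linarith, rfl⟩, ?_⟩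
      apply Complex.ext <;> simp
    · rintro ⟨_, ⟨s, t, s1, s2, s3, rfl⟩, rfl⟩
      simp
      refine ⟨⟨⟨?_, ?_⟩, ?_, ?_⟩, ?_⟩ <;> linarith
  · refine ⟨_, iso2 (-1) ⟨a + 3, b⟩ (by simp), ?_⟩
    ext z
    rw [mem_tri, mem_tile]
    simp only [wd, ht, pp, qq, if_true, if_false, Bool.false_eq_true]
    push_cast
    constructor
    · rintro ⟨⟨⟨h1, h2⟩, h3, h4⟩, h5⟩
      refine ⟨_, ⟨(a + 3 - z.re) / 3, z.im - b, by linarith, by linarith, by linarith, rfl⟩, ?_⟩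
      apply Complex.ext <;> simp
    · rintro ⟨_, ⟨s, t, s1, s2, s3, rfl⟩, rfl⟩
      simp
      refine ⟨⟨⟨?_, ?_⟩, ?_, ?_⟩, ?_⟩ <;> linarith
  · refine ⟨_, iso1 I ⟨a + 1, b⟩ (by simp), ?_⟩
    ext z
    rw [mem_tri, mem_tile]
    simp only [wd, ht, pp, qq, if_true, if_false, Bool.false_eq_true]
    push_cast
    constructor
    · rintro ⟨⟨⟨h1, h2⟩, h3, h4⟩, h5⟩
      refine ⟨_, ⟨(z.im - b) / 3, a + 1 - z.re, by linarith, by linarith, by linarith, rfl⟩, ?_⟩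
      apply Complex.ext <;> simp
    · rintro ⟨_, ⟨s, t, s1, s2, s3, rfl⟩, rfl⟩
      simp
      refine ⟨⟨⟨?_, ?_⟩, ?_, ?_⟩, ?_⟩ <;> linarith
  · refine ⟨_, iso1 (-I) ⟨a, b + 3⟩ (by simp), ?_⟩
    ext z
    rw [mem_tri, mem_tile]
    simp only [wd, ht, pp, qq, if_true, if_false, Bool.false_eq_true]
    push_cast
    constructor
    · rintro ⟨⟨⟨h1, h2⟩, h3, h4⟩, h5⟩
      refine ⟨_, ⟨(b + 3 - z.im) / 3, z.re - a, by linarith, by linarith, by linarith, rfl⟩, ?_⟩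
      apply Complex.ext <;> simp
    · rintro ⟨_, ⟨s, t, s1, s2, s3, rfl⟩, rfl⟩
      simp
      refine ⟨⟨⟨?_, ?_⟩, ?_, ?_⟩, ?_⟩ <;> linarith

theorem result : ∃ u v : ℂ, u.re * v.im - u.im * v.re ≠ 0 ∧ ∃ d : ℕ, 2 ≤ d ∧
    ∃ T : Set (Set ℂ), (∀ t ∈ T, ∃ f : ℂ → ℂ, Isometry f ∧ t = f '' trig u v) ∧
      IsMultTiling d T ∧ ¬ IsReducible d T := by
  refine ⟨3, I, by simp, 2, le_rfl, TR, ?_, TR_mult, TR_irred⟩
  rintro _ ⟨j, s, -, rfl⟩
  exact congr_tri j s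

end Pool.Agent.Results.MP_5dc1dd_co.Tri
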